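import Mathlib
import Pool.Agent.Lib.MP_8f4311_co.Basic

/-!
Negative answer to the question of Fox on off-diagonal Ramsey numbers of semi-algebraic graphs
on points of the plane.
-/

set_option autoImplicit false

namespace Pool.Agent.Results.MP_8f4311_co.Hyperbola

/-- The graph `G_f(v_1, ..., v_N)`, with the points indexed by `Fin N`: for `i < j` the pair
`{i, j}` is an edge iff `f (v_i, v_j) ≥ 0`. -/
def graphOf (f : MvPolynomial (Fin 4) ℝ) {N : ℕ} (v : Fin N → ℝ × ℝ) : SimpleGraph (Fin N) :=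
  SimpleGraph.fromRel fun i j =>
    i < j ∧ 0 ≤ MvPolynomial.eval ![(v i).1, (v i).2, (v j).1, (v j).2] f

/-- `R_f^{(2)}(s, n)`: the least `N` such that for every list of `N` distinct points of the plane
the graph defined by `f` has a clique of size `s` or an independent set of size `n`. -/
noncomputable def ramseyNum (f : MvPolynomial (Fin 4) ℝ) (s n : ℕ) : ℕ :=
  sInf {N : ℕ | ∀ v : Fin N → ℝ × ℝ, Function.Injective v →
    (∃ T, (graphOf f v).IsNClique s T) ∨ (∃ T, (graphOf f v).IsNIndepSet n T)}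

open Pool.Agent.Lib.MP_8f4311_co MvPolynomial in
/-- There is a real polynomial `f` in four variables with `R_f^{(2)}(3, n) > n^{7/6}` for all
large `n`. -/
theorem result : ∃ f : MvPolynomial (Fin 4) ℝ,
    ∀ᶠ n : ℕ in Filter.atTop, (n : ℝ) ^ ((7 : ℝ) / 6) < (ramseyNum f 3 n : ℝ) := by
  classical
  refine ⟨(C 2 * ((X 0 - X 2) * (X 1 - X 3)) - C 1) * (C 3 - C 2 * ((X 0 - X 2) * (X 1 - X 3))), ?_⟩
  set f : MvPolynomial (Fin 4) ℝ :=
    (C 2 * ((X 0 - X 2) * (X 1 - X 3)) - C 1) * (C 3 - C 2 * ((X 0 - X 2) * (X 1 - X 3))) with hf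
  have hev : ∀ u w : ℝ × ℝ, (0 ≤ eval ![u.1, u.2, w.1, w.2] f) ↔ Hyp u w := by
    intro u w
    simp [hf, Hyp, pr]
  have hadj : ∀ {N : ℕ} (v : Fin N → ℝ × ℝ) (i j : Fin N),
      (graphOf f v).Adj i j ↔ i ≠ j ∧ Hyp (v i) (v j) := by
    intro N v i j
    simp only [graphOf, SimpleGraph.fromRel_adj, hev]
    constructor
    · rintro ⟨h, ⟨_, h2⟩ | ⟨_, h2⟩⟩
      · exact ⟨h, h2⟩
      · exact ⟨h, hyp_comm h2⟩
    · rintro ⟨h, h2⟩
      rcases lt_or_gt_of_ne h with h3 | h3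
      · exact ⟨h, Or.inl ⟨h3, h2⟩⟩
      · exact ⟨h, Or.inr ⟨h3, hyp_comm h2⟩⟩
  filter_upwards [exists_level] with n ⟨L, hL1, hL2⟩
  refine lt_of_le_of_lt hL2 ?_
  have hmem : ramseyNum f 3 n ∈ {N : ℕ | ∀ v : Fin N → ℝ × ℝ, Function.Injective v →
      (∃ T, (graphOf f v).IsNClique 3 T) ∨ (∃ T, (graphOf f v).IsNIndepSet n T)} :=
    Nat.sInf_mem ⟨n * n, fun v _ => ramsey n _⟩
  by_contra hlt
  push Not at hlt
  have hle : Fintype.card (Fin (ramseyNum f 3 n)) ≤ Fintype.card (B L × B L) := by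
    rw [Fintype.card_fin, Fintype.card_prod, card_B, ← mul_pow]
    exact_mod_cast hlt
  obtain ⟨e⟩ := Function.Embedding.nonempty_of_card_le hle
  rcases hmem (fun i => pt L (e i)) ((pt_inj L).comp e.injective) with ⟨T, hT⟩ | ⟨T, hT⟩
  · obtain ⟨a, b, c, hab, hac, hbc, -⟩ := SimpleGraph.is3Clique_iff.1 hT
    exact no_triangle _ _ _ ((hadj _ _ _).1 hab).2 ((hadj _ _ _).1 hbc).2 ((hadj _ _ _).1 hac).2
  · have hb := indep_bound L (T.map e) (by
      intro p hp q hq hpq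
      obtain ⟨i, hi, rfl⟩ := Finset.mem_map.1 hp
      obtain ⟨j, hj, rfl⟩ := Finset.mem_map.1 hq
      have hij : i ≠ j := by
        rintro rfl
        rw [hyp_iff] at hpq
        have : pr (pt L (e i)) (pt L (e i)) = 0 := by simp [pr]
        linarith [hpq.1]
      exact hT.isIndepSet hi hj hij ((hadj _ _ _).2 ⟨hij, hpq⟩))
    rw [Finset.card_map, hT.card_eq] at hb
    linarith

end Pool.Agent.Results.MP_8f4311_co.Hyperbola
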